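import Pool.Agent.W586.GZ.Stm

/-!
Project GZ (helper586), part DEPH1: special functionals of weight `2 j + 1` on dependent sequences.
-/

set_option autoImplicit false
open Filter Topology

namespace Pool.Agent.W891.GZ
open Pool.Agent.W586.GZ

lemma m_growth (P : Par) (a b : ℕ) : (2 : ℝ) ^ b * P.m a ≤ P.m (a + b) := by
  induction b with
  | zero => simp
  | succ b ih =>
    have h1 : 2 * P.m (a + b) ≤ P.m (a + b + 1) := by
      rw [P.mS]
      have := P.mpos (a + b)
      have h2 : 4 ≤ P.m (a + b) ^ 2 := by nlinarith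
      calc 2 * P.m (a + b) ≤ 4 * P.m (a + b) := by omega
        _ ≤ P.m (a + b) ^ 2 * P.m (a + b) := Nat.mul_le_mul_right _ h2
        _ = P.m (a + b) ^ 3 := by ring
    have h1' : (2 : ℝ) * P.m (a + b) ≤ P.m (a + b + 1) := by exact_mod_cast h1
    calc (2 : ℝ) ^ (b + 1) * P.m a = 2 * (2 ^ b * P.m a) := by ring
      _ ≤ 2 * P.m (a + b) := by linarith
      _ ≤ P.m (a + (b + 1)) := h1'

lemma sum_geo (P : Par) (a : ℕ) (s : Finset ℕ) (hs : ∀ v ∈ s, a ≤ v) :
    ∑ v ∈ s, (1 : ℝ) / P.m (2 * v) ≤ 2 / P.m (2 * a) := by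
  have h1 : s ⊆ Finset.Ico a (a + (s.sup id + 1)) := by
    intro v hv
    rw [Finset.mem_Ico]
    refine ⟨hs v hv, ?_⟩
    have h2 : id v ≤ s.sup id := Finset.le_sup hv
    simp only [id] at h2
    omega
  calc ∑ v ∈ s, (1 : ℝ) / P.m (2 * v)
      ≤ ∑ v ∈ Finset.Ico a (a + (s.sup id + 1)), (1 : ℝ) / P.m (2 * v) :=
        Finset.sum_le_sum_of_subset_of_nonneg h1 (fun v _ _ => by positivity)
    _ = ∑ r ∈ Finset.range (s.sup id + 1), (1 : ℝ) / P.m (2 * (a + r)) := by
        rw [Finset.sum_Ico_eq_sum_range]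
        congr 1
        rw [Nat.add_sub_cancel_left]
    _ ≤ ∑ r ∈ Finset.range (s.sup id + 1), ((1 / (2 : ℝ)) ^ r) / P.m (2 * a) := by
        apply Finset.sum_le_sum
        intro r _
        have h3 := m_growth P (2 * a) (2 * r)
        have h4 : (2 : ℝ) ^ r ≤ 2 ^ (2 * r) := pow_le_pow_right₀ (by norm_num) (by omega)
        have h5 := P.mpos' (2 * a)
        have h6 : (2 : ℝ) ^ r * P.m (2 * a) ≤ P.m (2 * (a + r)) := by
          rw [show 2 * (a + r) = 2 * a + 2 * r by ring]
          exact le_trans (mul_le_mul_of_nonneg_right h4 h5.le) h3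
        rw [one_div_pow, div_div]
        exact one_div_le_one_div_of_le (by positivity) h6
    _ ≤ 2 / P.m (2 * a) := by
        rw [← Finset.sum_div]
        exact div_le_div_of_nonneg_right (sum_geometric_two_le _) (P.mpos' _).le

/-- the same for a family indexed by an injective function -/
lemma sum_geo' (P : Par) (a : ℕ) (p : ℕ → ℕ) (s : Finset ℕ) (hp : Set.InjOn p s)
    (hs : ∀ l ∈ s, a ≤ p l) :
    ∑ l ∈ s, (1 : ℝ) / P.m (2 * p l) ≤ 2 / P.m (2 * a) := by
  classical
  rw [← Finset.sum_image (f := fun v => (1 : ℝ) / P.m (2 * v)) hp]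
  apply sum_geo
  intro v hv
  obtain ⟨l, hl, rfl⟩ := Finset.mem_image.mp hv
  exact hs l hl

theorem main : S_DEPH1 := by
  classical
  intro P j y f q D I hI g hg
  obtain ⟨k, gg, w, A, hk, hgg, hlt, hgeq, hodd⟩ := hg.inv
  obtain ⟨p, hw, hpj, hpm, hpt⟩ := hodd j rfl
  set M : ℝ := (P.m (2 * j + 1) : ℝ) with hM
  have hMpos : 0 < M := P.mpos' _
  have hM2 : 2 ≤ M := by
    have := P.mpos (2 * j + 1)
    rw [hM]; exact_mod_cast this
  have hW : ∀ l, l < k → W P (some (2 * p l)) (gg l) := by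
    intro l hl
    have := hgg l hl
    rwa [hw l hl] at this
  have hIlt : ∀ i ∈ I, i < P.n (2 * j + 1) := fun i hi => Finset.mem_range.mp (hI hi)
  have hpinj : Set.InjOn p (Finset.range k : Set ℕ) := by
    intro a ha b hb hab
    have ha' : a < k := by simpa using ha
    have hb' : b < k := by simpa using hb
    by_contra hne
    rcases lt_or_gt_of_ne hne with h | h
    · exact absurd hab (Nat.ne_of_lt (hpm a b h hb'))
    · exact absurd hab.symm (Nat.ne_of_lt (hpm b a h ha'))
  -- the matching pairs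
  have hmatch : ∀ l i, l < k → i ∈ I → p l = q i → l = i ∧ ∀ l', l' < l → gg l' = f l' := by
    intro l i hl hi hpq
    have h1 := hpt l hl
    have h2 := D.tau i (hIlt i hi)
    rw [hpq, h2] at h1
    have hlen : i = l := by
      have := congrArg List.length h1
      simpa using this
    subst hlen
    refine ⟨rfl, ?_⟩
    intro l' hl'
    have h3 := List.map_inj_left.mp h1 l' (List.mem_range.mpr hl')
    exact h3.symm
  set E : ℕ → ℕ → ℝ := fun l i => if p l = q i then ev (gg l) (y i) else 0 with hE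
  set U : ℕ → ℕ → ℝ := fun l i => 12 * (1 / (P.m (2 * p l) : ℝ)) +
    (if q i + 1 ≤ p l then 12 * (P.m (2 * q i) : ℝ) * (1 / P.m (2 * p l)) else 0) +
    12 * (P.m (2 * q i) : ℝ) / P.n (2 * q i) with hU
  have hpair : ∀ l i, l < k → i ∈ I → ev (gg l) (y i) ≤ E l i + U l i := by
    intro l i hl hi
    have hx := D.ex i (hIlt i hi)
    have hm1 := P.mpos' (2 * p l)
    have hm2 := P.mpos' (2 * q i)
    have hn : (0 : ℝ) ≤ P.n (2 * q i) := Nat.cast_nonneg _
    have hU1 : 0 ≤ 12 * (1 / (P.m (2 * p l) : ℝ)) := by positivity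
    have hU3 : 0 ≤ 12 * (P.m (2 * q i) : ℝ) / P.n (2 * q i) := by positivity
    have hU2 : 0 ≤ (if q i + 1 ≤ p l then 12 * (P.m (2 * q i) : ℝ) * (1 / P.m (2 * p l)) else 0) := by
      split_ifs <;> positivity
    rcases lt_trichotomy (p l) (q i) with h | h | h
    · have h1 := hx.lo (2 * p l) (by omega) (gg l) (hW l hl)
      have h2 : (12 : ℝ) / P.m (2 * p l) = 12 * (1 / P.m (2 * p l)) := by ring
      have h3 : E l i = 0 := by rw [hE]; simp only; rw [if_neg (by omega)]
      rw [h3, hU]; simp only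
      rw [h2] at h1
      linarith
    · have h3 : E l i = ev (gg l) (y i) := by rw [hE]; simp only; rw [if_pos h]
      rw [h3, hU]; simp only
      linarith
    · have h1 := hx.hi (2 * p l) (by omega) (gg l) (hW l hl)
      have h3 : E l i = 0 := by rw [hE]; simp only; rw [if_neg (by omega)]
      rw [h3, hU]; simp only
      rw [if_pos (by omega)]
      have h4 : 12 * ((P.m (2 * q i) : ℝ) / P.m (2 * p l) + (P.m (2 * q i) : ℝ) / P.n (2 * q i))
          = 12 * P.m (2 * q i) * (1 / P.m (2 * p l)) + 12 * P.m (2 * q i) / P.n (2 * q i) := by ring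
      rw [h4] at h1
      linarith
  -- the unmatched part
  have hUsum : ∀ i ∈ I, ∑ l ∈ Finset.range k, U l i ≤ 60 / M ^ 3 := by
    intro i hi
    have hqj := D.qj i (hIlt i hi)
    have hmq := P.mpos' (2 * q i)
    have hMq : M ^ 3 ≤ P.m (2 * q i) := by
      have h1 : P.m (2 * j + 2) ≤ P.m (2 * q i) := P.mlt.monotone (by omega)
      have h2 : P.m (2 * j + 2) = P.m (2 * j + 1) ^ 3 := P.mS (2 * j + 1)
      rw [h2] at h1
      rw [hM]; exact_mod_cast h1
    have hM3 : 0 < M ^ 3 := by positivity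
    have hq1 : (1 : ℝ) ≤ P.m (2 * q i) := by
      have := P.mpos (2 * q i); exact_mod_cast (by omega : 1 ≤ P.m (2 * q i))
    have hs1 : ∑ l ∈ Finset.range k, 12 * (1 / (P.m (2 * p l) : ℝ)) ≤ 24 / M ^ 3 := by
      rw [← Finset.mul_sum]
      have h1 := sum_geo' P (j + 1) p (Finset.range k) hpinj
        (fun l hl => hpj l (Finset.mem_range.mp hl))
      have h2 : (P.m (2 * (j + 1)) : ℝ) = M ^ 3 := by
        have : P.m (2 * (j + 1)) = P.m (2 * j + 1) ^ 3 := P.mS (2 * j + 1)
        rw [this, hM]; push_cast; ring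
      rw [h2] at h1
      calc 12 * ∑ l ∈ Finset.range k, (1 : ℝ) / P.m (2 * p l) ≤ 12 * (2 / M ^ 3) := by linarith
        _ = 24 / M ^ 3 := by ring
    have hs2 : ∑ l ∈ Finset.range k,
        (if q i + 1 ≤ p l then 12 * (P.m (2 * q i) : ℝ) * (1 / P.m (2 * p l)) else 0)
          ≤ 24 / M ^ 3 := by
      rw [← Finset.sum_filter, ← Finset.mul_sum]
      have h1 := sum_geo' P (q i + 1) p ((Finset.range k).filter (fun l => q i + 1 ≤ p l))
        (fun a ha b hb hab => hpinj (Finset.mem_coe.mpr (Finset.mem_filter.mp ha).1)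
          (Finset.mem_coe.mpr (Finset.mem_filter.mp hb).1) hab)
        (fun l hl => (Finset.mem_filter.mp hl).2)
      have h2 : (P.m (2 * (q i + 1)) : ℝ) = (P.m (2 * q i) : ℝ) ^ 9 := by
        have h3 : P.m (2 * (q i + 1)) = (P.m (2 * q i) ^ 3) ^ 3 := by
          rw [← P.mS (2 * q i), ← P.mS (2 * q i + 1)]; rfl
        rw [h3]; push_cast; ring
      rw [h2] at h1
      have h4 : (P.m (2 * q i) : ℝ) ^ 2 ≤ (P.m (2 * q i) : ℝ) ^ 9 :=
        pow_le_pow_right₀ hq1 (by norm_num)
      calc 12 * (P.m (2 * q i) : ℝ) * ∑ l ∈ (Finset.range k).filter (fun l => q i + 1 ≤ p l),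
            (1 : ℝ) / P.m (2 * p l)
          ≤ 12 * (P.m (2 * q i) : ℝ) * (2 / (P.m (2 * q i) : ℝ) ^ 9) :=
            mul_le_mul_of_nonneg_left h1 (by positivity)
        _ ≤ 12 * (P.m (2 * q i) : ℝ) * (2 / (P.m (2 * q i) : ℝ) ^ 2) := by
            apply mul_le_mul_of_nonneg_left _ (by positivity)
            exact div_le_div_of_nonneg_left (by norm_num) (by positivity) h4
        _ = 24 / P.m (2 * q i) := by field_simp; ring
        _ ≤ 24 / M ^ 3 := div_le_div_of_nonneg_left (by norm_num) hM3 hMq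
    have hs3 : ∑ l ∈ Finset.range k, 12 * (P.m (2 * q i) : ℝ) / P.n (2 * q i) ≤ 12 / M ^ 3 := by
      rw [Finset.sum_const, Finset.card_range, nsmul_eq_mul]
      obtain ⟨r, hr⟩ : ∃ r, 2 * q i = r + 1 := ⟨2 * q i - 1, by omega⟩
      have h1 := P.nS r
      rw [← hr] at h1
      have h2 : P.n (2 * j + 1) ≤ P.n r := P.nlt.monotone (by omega)
      have h3 : P.n r ≤ (P.n r + 1) ^ (3 * P.m (2 * q i) + 1) :=
        le_trans (Nat.le_succ _) (Nat.le_self_pow (by omega) _)
      have h4 : P.m (2 * q i) ^ 3 * k ≤ P.n (2 * q i) := by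
        calc P.m (2 * q i) ^ 3 * k ≤ P.m (2 * q i) ^ 3 * (P.n r + 1) ^ (3 * P.m (2 * q i) + 1) :=
              Nat.mul_le_mul_left _ (hk.trans (h2.trans h3))
          _ ≤ P.n (2 * q i) := h1
      have h5 : (P.m (2 * q i) : ℝ) ^ 3 * k ≤ P.n (2 * q i) := by exact_mod_cast h4
      have hn0 : 0 < P.n (2 * q i) :=
        lt_of_lt_of_le (by have := P.n0; omega) (P.nlt.monotone (Nat.zero_le _) : P.n 0 ≤ _)
      have hn1 : (0 : ℝ) < P.n (2 * q i) := by exact_mod_cast hn0
      calc (k : ℝ) * (12 * (P.m (2 * q i) : ℝ) / P.n (2 * q i))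
          = 12 * (P.m (2 * q i) * k) / P.n (2 * q i) := by ring
        _ ≤ 12 / P.m (2 * q i) := by
            rw [div_le_div_iff₀ hn1 hmq]
            have hk0 : (0 : ℝ) ≤ k := Nat.cast_nonneg _
            have h6 : (P.m (2 * q i) : ℝ) ^ 2 * k ≤ (P.m (2 * q i) : ℝ) ^ 3 * k :=
              mul_le_mul_of_nonneg_right (pow_le_pow_right₀ hq1 (by norm_num)) hk0
            nlinarith
        _ ≤ 12 / M ^ 3 := div_le_div_of_nonneg_left (by norm_num) hM3 hMq
    have hsplit : ∑ l ∈ Finset.range k, U l i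
        = ∑ l ∈ Finset.range k, 12 * (1 / (P.m (2 * p l) : ℝ)) +
          ∑ l ∈ Finset.range k,
            (if q i + 1 ≤ p l then 12 * (P.m (2 * q i) : ℝ) * (1 / P.m (2 * p l)) else 0) +
          ∑ l ∈ Finset.range k, 12 * (P.m (2 * q i) : ℝ) / P.n (2 * q i) := by
      rw [← Finset.sum_add_distrib, ← Finset.sum_add_distrib]
    rw [hsplit]
    calc _ ≤ 24 / M ^ 3 + 24 / M ^ 3 + 12 / M ^ 3 := add_le_add (add_le_add hs1 hs2) hs3
      _ = 60 / M ^ 3 := by ring
  -- the matched part
  have hEsum : ∑ l ∈ Finset.range k, ∑ i ∈ I, E l i ≤ 12 := by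
    have h1 : ∀ l ∈ Finset.range k, ∑ i ∈ I, E l i = if l ∈ I then E l l else 0 := by
      intro l hl
      have hl' := Finset.mem_range.mp hl
      by_cases hlI : l ∈ I
      · rw [if_pos hlI, Finset.sum_eq_single_of_mem l hlI]
        intro i hi hil
        rw [hE]; simp only
        rw [if_neg]
        intro hpq
        exact hil (hmatch l i hl' hi hpq).1.symm
      · rw [if_neg hlI]
        apply Finset.sum_eq_zero
        intro i hi
        rw [hE]; simp only
        rw [if_neg]
        intro hpq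
        exact hlI ((hmatch l i hl' hi hpq).1 ▸ hi)
    rw [Finset.sum_congr rfl h1, ← Finset.sum_filter]
    set T := ((Finset.range k).filter (fun l => l ∈ I)).filter (fun l => p l = q l) with hT
    have h2 : ∑ l ∈ (Finset.range k).filter (fun l => l ∈ I), E l l = ∑ l ∈ T, ev (gg l) (y l) := by
      rw [hT, Finset.sum_filter (fun l => p l = q l)]
    rw [h2]
    rcases T.eq_empty_or_nonempty with h3 | h3
    · rw [h3]; simp
    · have hL := T.max'_mem h3
      set L := T.max' h3 with hLdef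
      have hLT := hL
      rw [hT, Finset.mem_filter, Finset.mem_filter, Finset.mem_range] at hL
      rw [Finset.sum_eq_single_of_mem L hLT]
      · exact (D.ex L (hIlt L hL.1.2)).all _ ⟨_, hW L hL.1.1⟩
      · intro l hl hne
        have hle : l ≤ L := T.le_max' l hl
        have hlt' : l < L := lt_of_le_of_ne hle hne
        rw [hT, Finset.mem_filter, Finset.mem_filter, Finset.mem_range] at hl
        rw [(hmatch L L hL.1.1 hL.1.2 hL.2).2 l hlt']
        unfold ev
        apply Finset.sum_eq_zero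
        intro n hn
        rw [D.dis l l (hIlt l hl.1.2) (hIlt l hl.1.2) n (Finsupp.mem_support_iff.mp hn)]
        simp
  have htot : ∑ l ∈ Finset.range k, ev (gg l) (fun n => ∑ i ∈ I, y i n) ≤ 12 + I.card * (60 / M ^ 3) := by
    calc ∑ l ∈ Finset.range k, ev (gg l) (fun n => ∑ i ∈ I, y i n)
        ≤ ∑ l ∈ Finset.range k, ∑ i ∈ I, (E l i + U l i) := by
          apply Finset.sum_le_sum
          intro l hl
          have hl' := Finset.mem_range.mp hl
          refine (ev_sum_right I (gg l) (hW l hl').nn y).trans ?_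
          exact Finset.sum_le_sum fun i hi => hpair l i hl' hi
      _ = ∑ l ∈ Finset.range k, ∑ i ∈ I, E l i + ∑ i ∈ I, ∑ l ∈ Finset.range k, U l i := by
          rw [Finset.sum_comm (s := I), ← Finset.sum_add_distrib]
          apply Finset.sum_congr rfl
          intro l _
          rw [Finset.sum_add_distrib]
      _ ≤ 12 + I.card * (60 / M ^ 3) := by
          apply add_le_add hEsum
          have := Finset.sum_le_card_nsmul I (fun i => ∑ l ∈ Finset.range k, U l i) (60 / M ^ 3) hUsum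
          rwa [nsmul_eq_mul] at this
  rw [hgeq]
  refine (ev_inv_le hgg _).trans ?_
  have hc0 : (0 : ℝ) ≤ I.card := Nat.cast_nonneg _
  have h1 : (60 : ℝ) / M ^ 3 ≤ 24 * M / M ^ 2 := by
    rw [div_le_div_iff₀ (by positivity) (by positivity)]
    have h2 : (4 : ℝ) ≤ M ^ 2 := by nlinarith
    have h3 : (0 : ℝ) < M ^ 2 := by positivity
    have h4 : 24 * M * M ^ 3 = 24 * M ^ 2 * M ^ 2 := by ring
    rw [h4]
    nlinarith
  calc (∑ l ∈ Finset.range k, ev (gg l) (fun n => ∑ i ∈ I, y i n)) / M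
      ≤ (12 + I.card * (60 / M ^ 3)) / M := div_le_div_of_nonneg_right htot hMpos.le
    _ ≤ (12 + I.card * (24 * M / M ^ 2)) / M := by
        apply div_le_div_of_nonneg_right _ hMpos.le
        have := mul_le_mul_of_nonneg_left h1 hc0
        linarith
    _ = 24 / M ^ 2 * I.card + 12 / M := by field_simp; ring
    _ ≤ 24 / M ^ 2 * I.card + 36 := by
        have h5 : (12 : ℝ) / M ≤ 36 := by
          rw [div_le_iff₀ hMpos]; linarith
        linarith

end Pool.Agent.W891.GZ
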